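import Pool.Agent.X153.C11.Big

set_option autoImplicit false
open Filter Topology Polynomial

namespace Pool.Agent.X153.C11

/-- the degrees -/
def mm : ℕ → ℕ
  | 0 => 0
  | k + 1 => 2 * 3 ^ k + 1

lemma mm_step (k : ℕ) : 2 * mm k < mm (k + 1) := by
  cases k with
  | zero => simp [mm]
  | succ k =>
    show 2 * (2 * 3 ^ k + 1) < 2 * 3 ^ (k + 1) + 1
    have : 1 ≤ 3 ^ k := Nat.one_le_pow _ _ (by norm_num)
    rw [pow_succ]
    omega

lemma mm_mono : Monotone mm := monotone_nat_of_le_succ fun k => by have := mm_step k; omega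

def dd (k : ℕ) : ℕ := mm (k + 1) - mm k

/-- the Rudin-Shapiro type polynomials -/
noncomputable def pq (a : ℂ) : ℕ → ℂ[X] × ℂ[X]
  | 0 => (0, 1)
  | k + 1 => ((pq a k).1 + C a * (X ^ dd k * (pq a k).2), X ^ dd k * (pq a k).2 - C a * (pq a k).1)

lemma pq_coeff (a : ℂ) (k : ℕ) : (∀ n, mm k < n → (pq a k).1.coeff n = 0) ∧
    (∀ n, mm k < n → (pq a k).2.coeff n = 0) ∧ (pq a k).2.coeff (mm k) = 1 := by
  induction k with
  | zero =>
    refine ⟨fun n _ => by simp [pq], fun n hn => ?_, by simp [pq, mm]⟩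
    have : n ≠ 0 := by simp [mm] at hn; omega
    simp [pq, coeff_one, this]
  | succ k ih =>
    obtain ⟨h1, h2, h3⟩ := ih
    have hs := mm_step k
    have hd : dd k + mm k = mm (k + 1) := by unfold dd; omega
    have hX : ∀ n, mm (k + 1) < n → (X ^ dd k * (pq a k).2).coeff n = 0 := by
      intro n hn
      rw [coeff_X_pow_mul', if_pos (by omega)]
      exact h2 _ (by omega)
    refine ⟨fun n hn => ?_, fun n hn => ?_, ?_⟩
    · show ((pq a k).1 + C a * (X ^ dd k * (pq a k).2)).coeff n = 0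
      rw [coeff_add, coeff_C_mul, hX n hn, h1 n (by omega)]; simp
    · show (X ^ dd k * (pq a k).2 - C a * (pq a k).1).coeff n = 0
      rw [coeff_sub, coeff_C_mul, hX n hn, h1 n (by omega)]; simp
    · show (X ^ dd k * (pq a k).2 - C a * (pq a k).1).coeff (mm (k + 1)) = 1
      rw [coeff_sub, coeff_C_mul, h1 _ (by omega), coeff_X_pow_mul', if_pos (by omega)]
      have : mm (k + 1) - dd k = mm k := by omega
      rw [this, h3]; simp

open Classical in
noncomputable def chi (n : ℕ) : ℂ := if ∃ k : ℕ, n = 2 * 3 ^ k + 1 then 1 else 0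

lemma chi_mm (k : ℕ) : chi (mm (k + 1)) = 1 := by
  unfold chi
  rw [if_pos ⟨k, rfl⟩]

lemma pq_sum (a : ℂ) (k M : ℕ) (hM : mm k < M) :
    ∑ n ∈ Finset.range M, (pq a k).1.coeff n * chi n = a * k := by
  induction k with
  | zero => simp [pq]
  | succ k ih =>
    have hs := mm_step k
    have hd : dd k + mm k = mm (k + 1) := by unfold dd; omega
    obtain ⟨h1, h2, h3⟩ := pq_coeff a k
    have e1 : ∀ n ∈ Finset.range M, (pq a (k + 1)).1.coeff n * chi n =
        (pq a k).1.coeff n * chi n + a * ((X ^ dd k * (pq a k).2).coeff n * chi n) := by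
      intro n _
      show ((pq a k).1 + C a * (X ^ dd k * (pq a k).2)).coeff n * chi n = _
      rw [coeff_add, coeff_C_mul]; ring
    rw [Finset.sum_congr rfl e1, Finset.sum_add_distrib, ih (by omega), ← Finset.mul_sum]
    have e2 : ∑ n ∈ Finset.range M, (X ^ dd k * (pq a k).2).coeff n * chi n = 1 := by
      rw [Finset.sum_eq_single (mm (k + 1))]
      · rw [chi_mm, mul_one, coeff_X_pow_mul', if_pos (by omega)]
        have : mm (k + 1) - dd k = mm k := by omega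
        rw [this, h3]
      · intro n _ hn
        rcases lt_or_gt_of_ne hn with hlt | hgt
        · by_cases hc : ∃ i : ℕ, n = 2 * 3 ^ i + 1
          · obtain ⟨i, hi⟩ := hc
            have hi' : n = mm (i + 1) := hi
            have hik : i + 1 ≤ k := by
              by_contra hcon
              have := mm_mono (by omega : k + 1 ≤ i + 1)
              omega
            have := mm_mono hik
            rw [coeff_X_pow_mul', if_neg (by omega), zero_mul]
          · have : chi n = 0 := by unfold chi; rw [if_neg hc]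
            rw [this, mul_zero]
        · rw [coeff_X_pow_mul', if_pos (by omega), h2 _ (by omega), zero_mul]
      · intro hc
        exfalso
        exact hc (Finset.mem_range.2 hM)
    rw [e2]
    push_cast
    ring

section Contraction

variable {H : Type} [NormedAddCommGroup H] [InnerProductSpace ℂ H] [CompleteSpace H]

lemma cross (a : ℝ) (x y : H) : ‖x + (a:ℂ) • y‖ ^ 2 + ‖y - (a:ℂ) • x‖ ^ 2 =
    (1 + a ^ 2) * (‖x‖ ^ 2 + ‖y‖ ^ 2) := by
  rw [@norm_add_sq ℂ, @norm_sub_sq ℂ, norm_smul, norm_smul, inner_smul_right, inner_smul_right]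
  have h1 : RCLike.re ((a:ℂ) * inner ℂ x y) = a * RCLike.re (inner ℂ x y) := by
    simp
  have h2 : RCLike.re ((a:ℂ) * inner ℂ y x) = a * RCLike.re (inner ℂ x y) := by
    have h3 : (inner ℂ y x).re = (inner ℂ x y).re := by
      rw [← inner_conj_symm, Complex.conj_re]
    simp [h3]
  rw [h1, h2, Complex.norm_real, Real.norm_eq_abs]
  have : |a| ^ 2 = a ^ 2 := sq_abs a
  nlinarith [this]

lemma contr (T : H →L[ℂ] H) (hT : ‖T‖ ≤ 1) (a : ℝ) (v : H) (k : ℕ) :
    ‖aeval T (pq a k).1 v‖ ^ 2 + ‖aeval T (pq a k).2 v‖ ^ 2 ≤ (1 + a ^ 2) ^ k * ‖v‖ ^ 2 := by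
  induction k with
  | zero => simp [pq]
  | succ k ih =>
    set x := aeval T (pq a k).1 v with hx
    set y := aeval T (pq a k).2 v with hy
    have hTn : ‖T ^ dd k‖ ≤ 1 := by
      rcases Nat.eq_zero_or_pos (dd k) with h0 | h0
      · rw [h0, pow_zero]; exact ContinuousLinearMap.norm_id_le
      · exact (norm_pow_le' T h0).trans (pow_le_one₀ (norm_nonneg _) hT)
    have hy' : ‖(T ^ dd k) y‖ ≤ ‖y‖ := by
      have := (T ^ dd k).le_of_opNorm_le hTn y
      simpa using this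
    have e1 : aeval T (pq a (k + 1)).1 v = x + (a:ℂ) • (T ^ dd k) y := by
      show aeval T ((pq a k).1 + C (a:ℂ) * (X ^ dd k * (pq a k).2)) v = _
      rw [map_add, map_mul, map_mul, aeval_C, aeval_X_pow]
      rw [Algebra.algebraMap_eq_smul_one, smul_mul_assoc, one_mul]
      rfl
    have e2 : aeval T (pq a (k + 1)).2 v = (T ^ dd k) y - (a:ℂ) • x := by
      show aeval T (X ^ dd k * (pq a k).2 - C (a:ℂ) * (pq a k).1) v = _
      rw [map_sub, map_mul, map_mul, aeval_C, aeval_X_pow]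
      rw [Algebra.algebraMap_eq_smul_one, smul_mul_assoc, one_mul]
      rfl
    rw [e1, e2, cross]
    have h1 : ‖(T ^ dd k) y‖ ^ 2 ≤ ‖y‖ ^ 2 := by gcongr
    have h2 : (0:ℝ) ≤ 1 + a ^ 2 := by positivity
    calc (1 + a ^ 2) * (‖x‖ ^ 2 + ‖(T ^ dd k) y‖ ^ 2) ≤ (1 + a ^ 2) * (‖x‖ ^ 2 + ‖y‖ ^ 2) := by gcongr
      _ ≤ (1 + a ^ 2) * ((1 + a ^ 2) ^ k * ‖v‖ ^ 2) := by gcongr
      _ = _ := by ring

lemma contr_norm (T : H →L[ℂ] H) (hT : ‖T‖ ≤ 1) (N : ℕ) (hN : 0 < N) :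
    ‖aeval T (pq ((1 / Real.sqrt N : ℝ) : ℂ) N).1‖ ≤ 2 := by
  apply ContinuousLinearMap.opNorm_le_bound _ (by norm_num)
  intro v
  have h1 := contr T hT (1 / Real.sqrt N) v N
  have hN' : (0:ℝ) < N := by exact_mod_cast hN
  have h2 : (1 / Real.sqrt N) ^ 2 = 1 / (N:ℝ) := by
    rw [div_pow, Real.sq_sqrt hN'.le]; simp
  rw [h2] at h1
  have h3 : (1 + 1 / (N:ℝ)) ^ N ≤ 4 := by
    have h4 : (1 + 1 / (N:ℝ)) ≤ Real.exp (1 / N) := by
      have := Real.add_one_le_exp (1 / (N:ℝ)); linarith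
    have h5 : (1 + 1 / (N:ℝ)) ^ N ≤ Real.exp (1 / N) ^ N := by gcongr
    rw [← Real.exp_nat_mul, mul_one_div_cancel hN'.ne'] at h5
    have := Real.exp_one_lt_d9
    linarith
  have h6 : ‖aeval T (pq ((1 / Real.sqrt N : ℝ) : ℂ) N).1 v‖ ^ 2 ≤ (2 * ‖v‖) ^ 2 := by
    have h7 := sq_nonneg ‖aeval T (pq ((1 / Real.sqrt N : ℝ) : ℂ) N).2 v‖
    have h8 : (1 + 1 / (N:ℝ)) ^ N * ‖v‖ ^ 2 ≤ 4 * ‖v‖ ^ 2 := by gcongr
    nlinarith
  exact (sq_le_sq₀ (norm_nonneg _) (by positivity)).1 h6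

end Contraction

theorem main :
    ¬ (∀ (H : Type) [NormedAddCommGroup H] [InnerProductSpace ℂ H] [CompleteSpace H]
      (T : H →L[ℂ] H),
      (∃ C : ℝ, ∀ n : ℕ, ‖T ^ n‖ ≤ C) →
      (∀ h : H, h ≠ 0 →
        ¬ Filter.Tendsto (fun n : ℕ => ‖(T ^ n) h‖) Filter.atTop (nhds 0)) →
      (∀ h : H, h ≠ 0 →
        ¬ Filter.Tendsto (fun n : ℕ => ‖((ContinuousLinearMap.adjoint T) ^ n) h‖)
          Filter.atTop (nhds 0)) →
      ∃ S : H ≃L[ℂ] H,
        ‖(S : H →L[ℂ] H).comp (T.comp (S.symm : H →L[ℂ] H))‖ ≤ 1) := by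
  intro hcon
  have hT₀ : ‖T₀‖ ≤ 3 := by simpa using T₀_pow_norm 1
  set T := big T₀ 3 (by norm_num) hT₀ with hT
  obtain ⟨S, hS⟩ := hcon (L (ℕ × ℤ) H₀) T
    ⟨3, big_pow_norm T₀ 3 (by norm_num) hT₀ T₀_pow_norm⟩
    (fun h hh => big_C1 T₀ 3 (by norm_num) hT₀ T₀_inj h hh)
    (fun h hh => big_adj_C1 T₀ 3 (by norm_num) hT₀ T₀_adj_inj h hh)
  set K : L (ℕ × ℤ) H₀ →L[ℂ] L (ℕ × ℤ) H₀ :=
    (S : L (ℕ × ℤ) H₀ →L[ℂ] L (ℕ × ℤ) H₀).comp (T.comp (S.symm : L (ℕ × ℤ) H₀ →L[ℂ] L (ℕ × ℤ) H₀))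
    with hK
  have hpow : ∀ (n : ℕ) (v : L (ℕ × ℤ) H₀), (T ^ n) v = S.symm ((K ^ n) (S v)) := by
    intro n
    induction n with
    | zero => intro v; simp
    | succ n ih =>
      intro v
      rw [pow_succ', ContinuousLinearMap.mul_apply, ih, pow_succ', ContinuousLinearMap.mul_apply]
      rw [hK]
      simp
  have hpoly : ∀ (p : ℂ[X]) (v : L (ℕ × ℤ) H₀), (aeval T p) v = S.symm ((aeval K p) (S v)) := by
    intro p v
    rw [aeval_eq_sum_range, aeval_eq_sum_range, ContinuousLinearMap.sum_apply,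
      ContinuousLinearMap.sum_apply, map_sum]
    apply Finset.sum_congr rfl
    intro n _
    rw [ContinuousLinearMap.smul_apply, ContinuousLinearMap.smul_apply, hpow, map_smul]
  set B : ℝ := ‖(S.symm : L (ℕ × ℤ) H₀ →L[ℂ] L (ℕ × ℤ) H₀)‖ * 2 *
    ‖(S : L (ℕ × ℤ) H₀ →L[ℂ] L (ℕ × ℤ) H₀)‖ with hB
  have hB0 : 0 ≤ B := by positivity
  have key : ∀ N : ℕ, 0 < N → Real.sqrt N ≤ B := by
    intro N hN
    set p := (pq ((1 / Real.sqrt N : ℝ) : ℂ) N).1 with hp
    have h1 : ‖aeval K p‖ ≤ 2 := contr_norm K hS N hN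
    have h2 : ‖aeval T p‖ ≤ B := by
      apply ContinuousLinearMap.opNorm_le_bound _ hB0
      intro v
      rw [hpoly]
      calc ‖S.symm ((aeval K p) (S v))‖ ≤
            ‖(S.symm : L (ℕ × ℤ) H₀ →L[ℂ] L (ℕ × ℤ) H₀)‖ * ‖(aeval K p) (S v)‖ :=
            (S.symm : L (ℕ × ℤ) H₀ →L[ℂ] L (ℕ × ℤ) H₀).le_opNorm _
        _ ≤ ‖(S.symm : L (ℕ × ℤ) H₀ →L[ℂ] L (ℕ × ℤ) H₀)‖ * (2 *
            (‖(S : L (ℕ × ℤ) H₀ →L[ℂ] L (ℕ × ℤ) H₀)‖ * ‖v‖)) := by
            gcongr
            refine ((aeval K p).le_of_opNorm_le h1 _).trans ?_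
            gcongr
            exact (S : L (ℕ × ℤ) H₀ →L[ℂ] L (ℕ × ℤ) H₀).le_opNorm _
        _ = B * ‖v‖ := by rw [hB]; ring
    have h3 := poly_bound T₀ 3 (by norm_num) hT₀ p f₀ e₀
    have h4 : ∑ n ∈ Finset.range (p.natDegree + 1), p.coeff n * inner ℂ e₀ ((T₀ ^ n) f₀) =
        ((1 / Real.sqrt N : ℝ) : ℂ) * N := by
      have h5 : ∑ n ∈ Finset.range (p.natDegree + 1), p.coeff n * inner ℂ e₀ ((T₀ ^ n) f₀) =
          ∑ n ∈ Finset.range (max (p.natDegree + 1) (mm N + 1)), p.coeff n * chi n := by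
        rw [← Finset.sum_subset (Finset.range_subset_range.2 (le_max_left (p.natDegree + 1) (mm N + 1)))]
        · apply Finset.sum_congr rfl
          intro n _
          rw [pairing]
          rfl
        · intro n _ hn
          rw [Finset.mem_range, not_lt] at hn
          rw [coeff_eq_zero_of_natDegree_lt (by omega), zero_mul]
      rw [h5]
      exact pq_sum _ N _ (lt_of_lt_of_le (Nat.lt_succ_self _) (le_max_right _ _))
    have hf : ‖f₀‖ = 1 := by
      unfold f₀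
      rw [lp.norm_single (by norm_num)]; simp
    have he : ‖e₀‖ = 1 := by
      unfold e₀
      rw [lp.norm_single (by norm_num)]; simp
    rw [h4, hf, he] at h3
    have hN' : (0:ℝ) < N := by exact_mod_cast hN
    have h5 : ‖((1 / Real.sqrt N : ℝ) : ℂ) * N‖ = Real.sqrt N := by
      rw [norm_mul, Complex.norm_real, Real.norm_eq_abs, abs_of_nonneg (by positivity)]
      rw [Complex.norm_natCast]
      have h6 : Real.sqrt N * Real.sqrt N = N := Real.mul_self_sqrt hN'.le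
      have h7 : Real.sqrt N ≠ 0 := (Real.sqrt_pos.2 hN').ne'
      field_simp
      rw [sq, h6]
    rw [h5] at h3
    calc Real.sqrt N ≤ ‖aeval T p‖ * (1 * 1) := h3
      _ ≤ B := by linarith
  obtain ⟨N, hN⟩ := exists_nat_gt ((B + 1) ^ 2)
  have hN0 : 0 < N := by
    have : (0:ℝ) < N := lt_of_le_of_lt (by positivity) hN
    exact_mod_cast this
  have h1 := key N hN0
  have h2 : B + 1 < Real.sqrt N := by
    rw [← Real.sqrt_sq (by positivity : 0 ≤ B + 1)]
    exact Real.sqrt_lt_sqrt (by positivity) hN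
  linarith

end Pool.Agent.X153.C11
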