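import Mathlib

set_option autoImplicit false
open Filter Topology

namespace Pool.Agent.X153.C11

section L2

variable {ι : Type} {E : Type} [NormedAddCommGroup E] [InnerProductSpace ℂ E] [CompleteSpace E]

/-- `ℓ²(ι; E)` -/
abbrev L (ι : Type) (E : Type) [NormedAddCommGroup E] : Type := lp (fun _ : ι => E) 2

lemma two_pos' : 0 < (2 : ENNReal).toReal := by norm_num

lemma nsq_hasSum (f : L ι E) : HasSum (fun i => ‖f i‖ ^ 2) (‖f‖ ^ 2) := by
  have := lp.hasSum_norm two_pos' f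
  simpa using this

lemma nsq (f : L ι E) : ‖f‖ ^ 2 = ∑' i, ‖f i‖ ^ 2 := (nsq_hasSum f).tsum_eq.symm

lemma nsum (f : L ι E) : Summable (fun i => ‖f i‖ ^ 2) := (nsq_hasSum f).summable

lemma mem_of_sum {f : ι → E} (hf : Summable fun i => ‖f i‖ ^ 2) : Memℓp f 2 :=
  memℓp_gen (by simpa using hf)

lemma norm_le_of_sq {f : L ι E} {C : ℝ} (hC : 0 ≤ C) (h : ∑' i, ‖f i‖ ^ 2 ≤ C ^ 2) : ‖f‖ ≤ C := by
  rw [← nsq] at h
  exact (sq_le_sq₀ (norm_nonneg _) hC).1 h

/-- weighted composition operator: `(wc σ W x) i = W i (x (σ i))` -/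
noncomputable def wc (σ : Equiv.Perm ι) (W : ι → E →L[ℂ] E) (C : ℝ) (hC : 0 ≤ C)
    (hW : ∀ i, ‖W i‖ ≤ C) : L ι E →L[ℂ] L ι E :=
  LinearMap.mkContinuous
    { toFun := fun x => ⟨fun i => W i (x (σ i)), mem_of_sum (by
        have h1 : Summable fun i => C ^ 2 * ‖x (σ i)‖ ^ 2 :=
          ((σ.summable_iff (f := fun i => ‖x i‖ ^ 2)).2 (nsum x)).mul_left _
        refine Summable.of_nonneg_of_le (fun i => by positivity) (fun i => ?_) h1
        rw [← mul_pow]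
        have := (W i).le_of_opNorm_le (hW i) (x (σ i))
        gcongr)⟩
      map_add' := fun x y => by
        ext i
        exact map_add (W i) (x (σ i)) (y (σ i))
      map_smul' := fun c x => by
        ext i
        exact map_smul (W i) c (x (σ i)) }
    C (fun x => by
      apply norm_le_of_sq (by positivity)
      have h1 : Summable fun i => C ^ 2 * ‖x (σ i)‖ ^ 2 :=
          ((σ.summable_iff (f := fun i => ‖x i‖ ^ 2)).2 (nsum x)).mul_left _
      have h2 : ∀ i, ‖W i (x (σ i))‖ ^ 2 ≤ C ^ 2 * ‖x (σ i)‖ ^ 2 := by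
        intro i
        rw [← mul_pow]
        have := (W i).le_of_opNorm_le (hW i) (x (σ i))
        gcongr
      calc ∑' i, ‖W i (x (σ i))‖ ^ 2 ≤ ∑' i, C ^ 2 * ‖x (σ i)‖ ^ 2 :=
            Summable.tsum_le_tsum h2 (Summable.of_nonneg_of_le (fun i => by positivity) h2 h1) h1
        _ = (C * ‖x‖) ^ 2 := by
            rw [tsum_mul_left, σ.tsum_eq (fun i => ‖x i‖ ^ 2), mul_pow, nsq])

lemma wc_apply (σ : Equiv.Perm ι) (W : ι → E →L[ℂ] E) (C : ℝ) (hC : 0 ≤ C)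
    (hW : ∀ i, ‖W i‖ ≤ C) (x : L ι E) (i : ι) : (wc σ W C hC hW x) i = W i (x (σ i)) := rfl

/-- adjoint of a weighted composition operator -/
lemma wc_adj_apply (σ : Equiv.Perm ι) (W : ι → E →L[ℂ] E) (C : ℝ) (hC : 0 ≤ C)
    (hW : ∀ i, ‖W i‖ ≤ C) (y : L ι E) (i : ι) :
    (ContinuousLinearMap.adjoint (wc σ W C hC hW) y) i =
      ContinuousLinearMap.adjoint (W (σ.symm i)) (y (σ.symm i)) := by
  have hW' : ∀ i, ‖ContinuousLinearMap.adjoint (W (σ.symm i))‖ ≤ C := fun i => by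
    rw [LinearIsometryEquiv.norm_map]; exact hW _
  have h : ContinuousLinearMap.adjoint (wc σ W C hC hW) =
      wc σ.symm (fun i => ContinuousLinearMap.adjoint (W (σ.symm i))) C hC hW' := by
    symm
    rw [ContinuousLinearMap.eq_adjoint_iff]
    intro x y
    rw [lp.inner_eq_tsum, lp.inner_eq_tsum, ← σ.tsum_eq]
    congr 1
    ext i
    rw [wc_apply, wc_apply, ContinuousLinearMap.adjoint_inner_left]
    simp
  rw [h]
  rfl

/-- A Schur test for operators bounded by finitely many weighted permutations. -/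
lemma schur {κ : Type} (S : Finset κ) (τ : κ → Equiv.Perm ι) (k : ι → κ → ℝ)
    (hk : ∀ i c, 0 ≤ k i c) {R : ℝ} (hR : 0 ≤ R) (hrow : ∀ i, ∑ c ∈ S, k i c ≤ R)
    (hcol : ∀ m, ∑ c ∈ S, k ((τ c).symm m) c ≤ R)
    (x y : L ι E) (hxy : ∀ i, ‖y i‖ ≤ ∑ c ∈ S, k i c * ‖x (τ c i)‖) : ‖y‖ ≤ R * ‖x‖ := by
  apply norm_le_of_sq (by positivity)
  have hkR : ∀ i, ∀ c ∈ S, k i c ≤ R := fun i c hc =>
    (Finset.single_le_sum (fun c _ => hk i c) hc).trans (hrow i)
  have hs : ∀ c ∈ S, Summable fun i => k i c * ‖x (τ c i)‖ ^ 2 := by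
    intro c hc
    have h1 : Summable fun i => R * ‖x (τ c i)‖ ^ 2 :=
      (((τ c).summable_iff (f := fun i => ‖x i‖ ^ 2)).2 (nsum x)).mul_left _
    refine Summable.of_nonneg_of_le (fun i => mul_nonneg (hk i c) (by positivity)) (fun i => ?_) h1
    have := hkR i c hc
    gcongr
  have hpt : ∀ i, ‖y i‖ ^ 2 ≤ R * ∑ c ∈ S, k i c * ‖x (τ c i)‖ ^ 2 := by
    intro i
    have h1 : (∑ c ∈ S, k i c * ‖x (τ c i)‖) ^ 2 ≤
        (∑ c ∈ S, k i c) * ∑ c ∈ S, k i c * ‖x (τ c i)‖ ^ 2 := by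
      apply Finset.sum_sq_le_sum_mul_sum_of_sq_eq_mul
      · exact fun c _ => hk i c
      · exact fun c _ => mul_nonneg (hk i c) (by positivity)
      · intro c _; ring
    have h2 : 0 ≤ ∑ c ∈ S, k i c * ‖x (τ c i)‖ ^ 2 :=
      Finset.sum_nonneg fun c _ => mul_nonneg (hk i c) (by positivity)
    calc ‖y i‖ ^ 2 ≤ (∑ c ∈ S, k i c * ‖x (τ c i)‖) ^ 2 := by
          have := hxy i; gcongr
      _ ≤ _ := h1
      _ ≤ _ := mul_le_mul_of_nonneg_right (hrow i) h2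
  have hsS : Summable fun i => R * ∑ c ∈ S, k i c * ‖x (τ c i)‖ ^ 2 :=
    (summable_sum hs).mul_left _
  have hcolsum : ∀ c ∈ S, Summable fun m => k ((τ c).symm m) c * ‖x m‖ ^ 2 := by
    intro c hc
    have h1 := ((τ c).symm.summable_iff (f := fun i => k i c * ‖x (τ c i)‖ ^ 2)).2 (hs c hc)
    refine h1.congr fun m => ?_
    simp
  calc ∑' i, ‖y i‖ ^ 2 ≤ ∑' i, R * ∑ c ∈ S, k i c * ‖x (τ c i)‖ ^ 2 :=
        Summable.tsum_le_tsum hpt (nsum y) hsS
    _ = R * ∑ c ∈ S, ∑' i, k i c * ‖x (τ c i)‖ ^ 2 := by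
        rw [tsum_mul_left, Summable.tsum_finsetSum hs]
    _ = R * ∑ c ∈ S, ∑' m, k ((τ c).symm m) c * ‖x m‖ ^ 2 := by
        congr 1
        apply Finset.sum_congr rfl
        intro c _
        rw [← (τ c).symm.tsum_eq]
        congr 1
        ext m
        simp
    _ = R * ∑' m, ∑ c ∈ S, k ((τ c).symm m) c * ‖x m‖ ^ 2 := by
        rw [Summable.tsum_finsetSum hcolsum]
    _ ≤ R * ∑' m, R * ‖x m‖ ^ 2 := by
        apply mul_le_mul_of_nonneg_left _ hR
        apply Summable.tsum_le_tsum _ (summable_sum hcolsum) ((nsum x).mul_left R)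
        intro m
        rw [← Finset.sum_mul]
        have := hcol m
        gcongr
    _ = (R * ‖x‖) ^ 2 := by
        rw [tsum_mul_left, ← nsq]; ring

end L2

end Pool.Agent.X153.C11
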