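import Pool.Agent.X153.C11.Tzero

set_option autoImplicit false
open Filter Topology Polynomial

namespace Pool.Agent.X153.C11

section Big

variable {E : Type} [NormedAddCommGroup E] [InnerProductSpace ℂ E] [CompleteSpace E]

/-- the shift of the second coordinate -/
def sh (n : ℤ) : Equiv.Perm (ℕ × ℤ) where
  toFun i := (i.1, i.2 - n)
  invFun i := (i.1, i.2 + n)
  left_inv i := by simp
  right_inv i := by simp

/-- the operator weights -/
noncomputable def WW (A : E →L[ℂ] E) (i : ℕ × ℤ) : E →L[ℂ] E :=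
  if 1 ≤ i.2 ∧ i.2 ≤ i.1 then A else 1

lemma WW_norm {A : E →L[ℂ] E} {C : ℝ} (hC : 1 ≤ C) (hA : ‖A‖ ≤ C) (i : ℕ × ℤ) : ‖WW A i‖ ≤ C := by
  unfold WW
  split_ifs
  · exact hA
  · exact (ContinuousLinearMap.norm_id_le (𝕜 := ℂ) (E := E)).trans hC

/-- the operator-weighted shift -/
noncomputable def big (A : E →L[ℂ] E) (C : ℝ) (hC : 1 ≤ C) (hA : ‖A‖ ≤ C) :
    L (ℕ × ℤ) E →L[ℂ] L (ℕ × ℤ) E :=
  wc (sh 1) (WW A) C (zero_le_one.trans hC) (WW_norm hC hA)

/-- number of weights equal to `A` -/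
def cnt (m : ℕ) : ℤ → ℕ → ℕ
  | _, 0 => 0
  | j, n + 1 => (if 1 ≤ j ∧ j ≤ m then 1 else 0) + cnt m (j - 1) n

def cnt' (m : ℕ) : ℤ → ℕ → ℕ
  | _, 0 => 0
  | j, n + 1 => (if 1 ≤ j + 1 ∧ j + 1 ≤ m then 1 else 0) + cnt' m (j + 1) n

lemma cnt_le (m n : ℕ) (j : ℤ) : (cnt m j n : ℤ) ≤ max 0 (min j m) := by
  induction n generalizing j with
  | zero => simp [cnt]
  | succ n ih =>
    have := ih (j - 1)
    rw [cnt]
    split_ifs with h <;> push_cast <;> omega

lemma cnt'_le (m n : ℕ) (j : ℤ) : (cnt' m j n : ℤ) ≤ max 0 (min (m - j) m) := by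
  induction n generalizing j with
  | zero => simp [cnt']
  | succ n ih =>
    have := ih (j + 1)
    rw [cnt']
    split_ifs with h <;> push_cast <;> omega

lemma cnt_eq (m n : ℕ) (j : ℤ) (h1 : (n:ℤ) ≤ j) (h2 : j ≤ m) : cnt m j n = n := by
  induction n generalizing j with
  | zero => rfl
  | succ n ih =>
    rw [cnt, ih (j - 1) (by push_cast at h1; omega) (by omega), if_pos ⟨by push_cast at h1; omega, h2⟩]
    omega

lemma big_pow (A : E →L[ℂ] E) (C : ℝ) (hC : 1 ≤ C) (hA : ‖A‖ ≤ C) (n : ℕ) (x : L (ℕ × ℤ) E)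
    (m : ℕ) (j : ℤ) : ((big A C hC hA ^ n) x) (m, j) = (A ^ (cnt m j n)) (x (m, j - n)) := by
  induction n generalizing j with
  | zero => simp [cnt]
  | succ n ih =>
    rw [pow_succ', ContinuousLinearMap.mul_apply]
    have h1 : (big A C hC hA ((big A C hC hA ^ n) x)) (m, j) =
        WW A (m, j) (((big A C hC hA ^ n) x) (m, j - 1)) := rfl
    rw [h1, ih (j - 1)]
    have e : j - 1 - (n:ℤ) = j - ((n + 1 : ℕ):ℤ) := by push_cast; ring
    rw [e, cnt]
    unfold WW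
    split_ifs with hc
    · rw [pow_add, pow_one, ContinuousLinearMap.mul_apply]
    · rw [zero_add]; rfl

lemma big_adj_pow (A : E →L[ℂ] E) (C : ℝ) (hC : 1 ≤ C) (hA : ‖A‖ ≤ C) (n : ℕ) (x : L (ℕ × ℤ) E)
    (m : ℕ) (j : ℤ) : ((ContinuousLinearMap.adjoint (big A C hC hA) ^ n) x) (m, j) =
      (ContinuousLinearMap.adjoint A ^ (cnt' m j n)) (x (m, j + n)) := by
  induction n generalizing j with
  | zero => simp [cnt']
  | succ n ih =>
    rw [pow_succ', ContinuousLinearMap.mul_apply]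
    have h1 : (ContinuousLinearMap.adjoint (big A C hC hA)
        ((ContinuousLinearMap.adjoint (big A C hC hA) ^ n) x)) (m, j) =
        ContinuousLinearMap.adjoint (WW A (m, j + 1))
          (((ContinuousLinearMap.adjoint (big A C hC hA) ^ n) x) (m, j + 1)) := by
      unfold big
      rw [wc_adj_apply]
      rfl
    rw [h1, ih (j + 1)]
    have e : j + 1 + (n:ℤ) = j + ((n + 1 : ℕ):ℤ) := by push_cast; ring
    rw [e, cnt']
    unfold WW
    by_cases hc : 1 ≤ j + 1 ∧ j + 1 ≤ (m:ℤ)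
    · rw [if_pos hc, if_pos hc, pow_add, pow_one, ContinuousLinearMap.mul_apply]
    · rw [if_neg hc, if_neg hc, zero_add]
      have : ContinuousLinearMap.adjoint (1 : E →L[ℂ] E) = 1 := ContinuousLinearMap.adjoint_id
      rw [this]
      rfl

lemma big_pow_norm (A : E →L[ℂ] E) (C : ℝ) (hC : 1 ≤ C) (hA : ‖A‖ ≤ C) (hP : ∀ n : ℕ, ‖A ^ n‖ ≤ C)
    (n : ℕ) : ‖big A C hC hA ^ n‖ ≤ C := by
  have hC0 : 0 ≤ C := zero_le_one.trans hC
  apply ContinuousLinearMap.opNorm_le_bound _ hC0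
  intro x
  apply schur ({()} : Finset Unit) (fun _ => sh n) (fun _ _ => C) (fun _ _ => hC0) hC0
  · intro i; simp
  · intro i; simp
  · rintro ⟨m, j⟩
    rw [Finset.sum_singleton, big_pow]
    exact (A ^ (cnt m j n)).le_of_opNorm_le (hP _) _

lemma pow_inj {A : E →L[ℂ] E} (hA : ∀ v, A v = 0 → v = 0) (c : ℕ) (v : E) (h : (A ^ c) v = 0) :
    v = 0 := by
  induction c with
  | zero => simpa using h
  | succ c ih =>
    rw [pow_succ', ContinuousLinearMap.mul_apply] at h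
    exact ih (hA _ h)

lemma unif_pos {A : E →L[ℂ] E} (hA : ∀ v, A v = 0 → v = 0) (m : ℕ) {v : E} (hv : v ≠ 0) :
    ∃ δ > 0, ∀ c ≤ m, δ ≤ ‖(A ^ c) v‖ := by
  obtain ⟨c, -, hmin⟩ := Finset.exists_min_image (Finset.range (m + 1)) (fun c => ‖(A ^ c) v‖) ⟨0, by simp⟩
  refine ⟨‖(A ^ c) v‖, norm_pos_iff.2 fun h0 => hv (pow_inj hA c v h0), fun c' hc' => ?_⟩
  exact hmin c' (Finset.mem_range.2 (by omega))

lemma big_C1 (A : E →L[ℂ] E) (C : ℝ) (hC : 1 ≤ C) (hA : ‖A‖ ≤ C) (hinj : ∀ v, A v = 0 → v = 0)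
    (x : L (ℕ × ℤ) E) (hx : x ≠ 0) :
    ¬ Tendsto (fun n : ℕ => ‖(big A C hC hA ^ n) x‖) atTop (nhds 0) := by
  obtain ⟨⟨m, j⟩, hmj⟩ : ∃ i, x i ≠ 0 := by
    by_contra hcon
    push Not at hcon
    exact hx (by ext i; simpa using hcon i)
  obtain ⟨δ, hδ, hb⟩ := unif_pos hinj m hmj
  intro ht
  have h1 : δ ≤ 0 := by
    apply ge_of_tendsto' ht
    intro n
    have h2 := lp.norm_apply_le_norm (by norm_num : (2:ENNReal) ≠ 0) ((big A C hC hA ^ n) x) (m, j + n)
    refine le_trans ?_ h2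
    rw [big_pow, add_sub_cancel_right]
    apply hb
    have := cnt_le m n (j + n)
    omega
  linarith

lemma big_adj_C1 (A : E →L[ℂ] E) (C : ℝ) (hC : 1 ≤ C) (hA : ‖A‖ ≤ C)
    (hinj : ∀ v, ContinuousLinearMap.adjoint A v = 0 → v = 0)
    (x : L (ℕ × ℤ) E) (hx : x ≠ 0) :
    ¬ Tendsto (fun n : ℕ => ‖(ContinuousLinearMap.adjoint (big A C hC hA) ^ n) x‖) atTop (nhds 0) := by
  obtain ⟨⟨m, j⟩, hmj⟩ : ∃ i, x i ≠ 0 := by
    by_contra hcon
    push Not at hcon
    exact hx (by ext i; simpa using hcon i)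
  obtain ⟨δ, hδ, hb⟩ := unif_pos hinj m hmj
  intro ht
  have h1 : δ ≤ 0 := by
    apply ge_of_tendsto' ht
    intro n
    have h2 := lp.norm_apply_le_norm (by norm_num : (2:ENNReal) ≠ 0)
      ((ContinuousLinearMap.adjoint (big A C hC hA) ^ n) x) (m, j - n)
    refine le_trans ?_ h2
    rw [big_adj_pow, sub_add_cancel]
    apply hb
    have := cnt'_le m n (j - n)
    omega
  linarith

/-- a vector spread over a block -/
noncomputable def G (m : ℕ) (x : E) : L (ℕ × ℤ) E :=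
  ∑ j ∈ Finset.range (m + 1), lp.single 2 (m, (j:ℤ)) x

lemma G_apply (m : ℕ) (x : E) (j : ℤ) : (G m x) (m, j) = if 0 ≤ j ∧ j ≤ m then x else 0 := by
  unfold G
  rw [lp.coeFn_sum, Finset.sum_apply]
  have h1 : ∀ k ∈ Finset.range (m + 1), (lp.single 2 (m, (k:ℤ)) x : L (ℕ × ℤ) E) (m, j) =
      if (k:ℤ) = j then x else 0 := by
    intro k _
    split_ifs with hk
    · rw [hk, lp.single_apply_self]
    · rw [lp.single_apply_ne]
      intro hc
      exact hk (Prod.ext_iff.1 hc).2.symm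
  rw [Finset.sum_congr rfl h1]
  split_ifs with hj
  · rw [Finset.sum_eq_single j.toNat]
    · rw [if_pos (by omega)]
    · intro b _ hb
      rw [if_neg (by omega)]
    · intro hc
      exfalso
      apply hc
      rw [Finset.mem_range]
      omega
  · apply Finset.sum_eq_zero
    intro k hk
    rw [Finset.mem_range] at hk
    rw [if_neg (by omega)]

lemma G_pairing (A : E →L[ℂ] E) (C : ℝ) (hC : 1 ≤ C) (hA : ‖A‖ ≤ C) (m n : ℕ) (x y : E) :
    inner ℂ (G m y) ((big A C hC hA ^ n) (G m x)) = ((m + 1 - n : ℕ) : ℂ) * inner ℂ y ((A ^ n) x) := by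
  have h0 : inner ℂ (G m y) ((big A C hC hA ^ n) (G m x)) =
      ∑ j ∈ Finset.range (m + 1), inner ℂ y (((big A C hC hA ^ n) (G m x)) (m, (j:ℤ))) := by
    conv_lhs => rw [G]
    rw [sum_inner]
    apply Finset.sum_congr rfl
    intro j _
    rw [lp.inner_single_left]
  rw [h0]
  have h1 : ∀ j ∈ Finset.range (m + 1), inner ℂ y (((big A C hC hA ^ n) (G m x)) (m, (j:ℤ))) =
      if n ≤ j then inner ℂ y ((A ^ n) x) else 0 := by
    intro j hj
    rw [Finset.mem_range] at hj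
    rw [big_pow, G_apply]
    split_ifs with h2 h3 h3
    · rw [cnt_eq m n j (by omega) (by omega)]
    · omega
    · omega
    · simp
  rw [Finset.sum_congr rfl h1, ← Finset.sum_filter, Finset.sum_const, nsmul_eq_mul]
  congr 2
  have : Finset.filter (fun j => n ≤ j) (Finset.range (m + 1)) = Finset.Ico n (m + 1) := by
    ext j
    rw [Finset.mem_filter, Finset.mem_range, Finset.mem_Ico]
    tauto
  rw [this, Nat.card_Ico]

lemma G_norm (m : ℕ) (x : E) : ‖G m x‖ ^ 2 = (m + 1) * ‖x‖ ^ 2 := by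
  have h := G_pairing (0 : E →L[ℂ] E) 1 le_rfl (by simp) m 0 x x
  rw [pow_zero, pow_zero, ContinuousLinearMap.one_apply, ContinuousLinearMap.one_apply,
    inner_self_eq_norm_sq_to_K, inner_self_eq_norm_sq_to_K] at h
  have h2 : (((‖G m x‖ ^ 2 : ℝ)) : ℂ) = (((m + 1) * ‖x‖ ^ 2 : ℝ) : ℂ) := by
    push_cast
    rw [Nat.sub_zero] at h
    simpa using h
  exact_mod_cast h2

/-- the operator `A` is a limit of compressions of the big operator -/
lemma poly_bound (A : E →L[ℂ] E) (C : ℝ) (hC : 1 ≤ C) (hA : ‖A‖ ≤ C) (p : ℂ[X]) (x y : E) :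
    ‖∑ n ∈ Finset.range (p.natDegree + 1), p.coeff n * inner ℂ y ((A ^ n) x)‖ ≤
      ‖aeval (big A C hC hA) p‖ * (‖x‖ * ‖y‖) := by
  set T := big A C hC hA with hT
  have h1 : ∀ m : ℕ, ‖∑ n ∈ Finset.range (p.natDegree + 1),
      ((((m + 1 - n : ℕ) : ℝ) / (m + 1) : ℝ) : ℂ) * (p.coeff n * inner ℂ y ((A ^ n) x))‖ ≤
      ‖aeval T p‖ * (‖x‖ * ‖y‖) := by
    intro m
    have h2 : inner ℂ (G m y) ((aeval T p) (G m x)) =
        ∑ n ∈ Finset.range (p.natDegree + 1), ((m + 1 - n : ℕ) : ℂ) * (p.coeff n * inner ℂ y ((A ^ n) x)) := by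
      rw [aeval_eq_sum_range, ContinuousLinearMap.sum_apply, inner_sum]
      apply Finset.sum_congr rfl
      intro n _
      rw [ContinuousLinearMap.smul_apply, inner_smul_right, G_pairing]
      ring
    have h3 : ∑ n ∈ Finset.range (p.natDegree + 1),
      ((((m + 1 - n : ℕ) : ℝ) / (m + 1) : ℝ) : ℂ) * (p.coeff n * inner ℂ y ((A ^ n) x)) =
      inner ℂ (G m y) ((aeval T p) (G m x)) / ((m:ℂ) + 1) := by
      rw [h2, Finset.sum_div]
      apply Finset.sum_congr rfl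
      intro n _
      push_cast
      ring
    have hm : (0:ℝ) < m + 1 := by positivity
    have h4 : ‖((m:ℂ) + 1)‖ = (m:ℝ) + 1 := by
      have : ((m:ℂ) + 1) = (((m:ℝ) + 1 : ℝ) : ℂ) := by push_cast; ring
      rw [this, Complex.norm_real, Real.norm_eq_abs, abs_of_pos hm]
    rw [h3, norm_div, h4, div_le_iff₀ hm]
    have hx := G_norm m x
    have hy := G_norm m y
    have h5 : ‖G m x‖ * ‖G m y‖ = (m + 1) * (‖x‖ * ‖y‖) := by
      have h6 : (‖G m x‖ * ‖G m y‖) ^ 2 = ((m + 1) * (‖x‖ * ‖y‖)) ^ 2 := by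
        rw [mul_pow, hx, hy]; ring
      exact (sq_eq_sq₀ (by positivity) (by positivity)).1 h6
    calc ‖inner ℂ (G m y) ((aeval T p) (G m x))‖ ≤ ‖G m y‖ * ‖(aeval T p) (G m x)‖ := norm_inner_le_norm _ _
      _ ≤ ‖G m y‖ * (‖aeval T p‖ * ‖G m x‖) := by
          gcongr; exact (aeval T p).le_opNorm _
      _ = ‖aeval T p‖ * (‖G m x‖ * ‖G m y‖) := by ring
      _ = _ := by rw [h5]; ring
  have h2 : Tendsto (fun m : ℕ => ‖∑ n ∈ Finset.range (p.natDegree + 1),
      ((((m + 1 - n : ℕ) : ℝ) / (m + 1) : ℝ) : ℂ) * (p.coeff n * inner ℂ y ((A ^ n) x))‖) atTop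
      (𝓝 ‖∑ n ∈ Finset.range (p.natDegree + 1), (((1:ℝ) : ℝ) : ℂ) * (p.coeff n * inner ℂ y ((A ^ n) x))‖) := by
    apply Tendsto.norm
    apply tendsto_finsetSum
    intro n _
    apply Tendsto.mul_const
    apply (Complex.continuous_ofReal.tendsto _).comp
    have h3 : Tendsto (fun m : ℕ => 1 - (n:ℝ) / ((m:ℝ) + 1)) atTop (𝓝 (1 - 0)) := by
      apply Tendsto.const_sub
      have h4 : Tendsto (fun m : ℕ => (m:ℝ) + 1) atTop atTop :=
        tendsto_atTop_add_const_right _ _ tendsto_natCast_atTop_atTop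
      exact Tendsto.div_atTop tendsto_const_nhds h4
    rw [sub_zero] at h3
    refine h3.congr' ?_
    filter_upwards [eventually_ge_atTop n] with m hm
    have hm0 : (0:ℝ) < (m:ℝ) + 1 := by positivity
    rw [Nat.cast_sub (by omega)]
    push_cast
    field_simp
  have h3 := le_of_tendsto' h2 h1
  simpa using h3

end Big

end Pool.Agent.X153.C11
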