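import Pool.Agent.X153.C11.Basic

set_option autoImplicit false
open Filter Topology

namespace Pool.Agent.X153.C11

/-- the weight -/
noncomputable def h (j : ℤ) : ℝ := (2 : ℝ) ^ (min j 0)

lemma h_pos (j : ℤ) : 0 < h j := by unfold h; positivity

lemma h_mono {i j : ℤ} (hij : i ≤ j) : h i ≤ h j := by
  unfold h
  exact zpow_le_zpow_right₀ (by norm_num) (min_le_min_right 0 hij)

lemma h_le_one (j : ℤ) : h j ≤ 1 := by
  have : h j ≤ (2:ℝ) ^ (0:ℤ) := zpow_le_zpow_right₀ (by norm_num) (min_le_right j 0)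
  simpa using this

lemma h_nonneg {j : ℤ} (hj : 0 ≤ j) : h j = 1 := by
  unfold h
  rw [min_eq_right hj]
  simp

lemma h_neg {j : ℤ} (hj : j < 0) : h j = (2:ℝ) ^ j := by
  unfold h
  rw [min_eq_left hj.le]

/-- the sparse set -/
def lam (q : ℤ) : Prop := ∃ k : ℕ, q = 3 ^ k

open Classical in
/-- indicator of the sparse set -/
noncomputable def ind (q : ℤ) : ℝ := if lam q then 1 else 0

lemma ind_nonneg (q : ℤ) : 0 ≤ ind q := by unfold ind; split_ifs <;> norm_num

lemma ind_le_one (q : ℤ) : ind q ≤ 1 := by unfold ind; split_ifs <;> norm_num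

lemma lam_pos {q : ℤ} (hq : lam q) : 0 < q := by
  obtain ⟨k, rfl⟩ := hq
  positivity

lemma lam_sparse {q r : ℤ} (hq : lam q) (hr : lam r) (h : q < r) : 3 * q ≤ r := by
  obtain ⟨k, rfl⟩ := hq
  obtain ⟨m, rfl⟩ := hr
  have hkm : k < m := (pow_lt_pow_iff_right₀ (by norm_num : (1:ℤ) < 3)).1 h
  calc (3:ℤ) * 3 ^ k = 3 ^ (k + 1) := by ring
    _ ≤ 3 ^ m := pow_le_pow_right₀ (by norm_num) hkm

/-- geometric sum over the negative integers in a progression with difference two -/
lemma geom (n : ℕ) (s : ℤ) : (∑ a ∈ Finset.range n, (if s + 2 * (a:ℤ) < 0 then (2:ℝ) ^ (s + 2 * (a:ℤ)) else 0) ≤ 1) ∧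
    (∑ a ∈ Finset.range n, (if s + 2 * (a:ℤ) < 0 then (2:ℝ) ^ (s + 2 * (a:ℤ)) else 0) ≤
      (2:ℝ) ^ (s + 2 * (n:ℤ) - 1)) := by
  induction n with
  | zero =>
    simp only [Finset.range_zero, Finset.sum_empty]
    exact ⟨zero_le_one, by positivity⟩
  | succ n ih =>
    obtain ⟨h1, h2⟩ := ih
    rw [Finset.sum_range_succ]
    have e3 : (2:ℝ) ^ (s + 2 * (n:ℤ)) = 2 * (2:ℝ) ^ (s + 2 * (n:ℤ) - 1) := by
      rw [← zpow_one_add₀ (by norm_num)]; congr 1; ring
    have e4 : (2:ℝ) ^ (s + 2 * ((n + 1 : ℕ):ℤ) - 1) = 4 * (2:ℝ) ^ (s + 2 * (n:ℤ) - 1) := by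
      have : (4:ℝ) = 2 ^ (2:ℤ) := by norm_num
      rw [this, ← zpow_add₀ (by norm_num)]; congr 1; push_cast; ring
    have e5 : 0 < (2:ℝ) ^ (s + 2 * (n:ℤ) - 1) := by positivity
    split_ifs with hs
    · have e1 : (2:ℝ) ^ (s + 2 * (n:ℤ) - 1) ≤ (2:ℝ) ^ (-2:ℤ) :=
        zpow_le_zpow_right₀ (by norm_num) (by omega)
      have e2 : (2:ℝ) ^ (-2:ℤ) = 1 / 4 := by norm_num
      rw [e2] at e1
      rw [e4]
      constructor <;> linarith
    · have e1 : (2:ℝ) ^ (-1:ℤ) ≤ (2:ℝ) ^ (s + 2 * (n:ℤ) - 1) :=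
        zpow_le_zpow_right₀ (by norm_num) (by omega)
      have e2 : (2:ℝ) ^ (-1:ℤ) = 1 / 2 := by norm_num
      rw [e2] at e1
      rw [e4]
      constructor <;> linarith

/-- row sums -/
lemma row_sum (n : ℕ) (l : ℤ) :
    ∑ a ∈ Finset.range n, ind (l + a) * (h l * h (l + 2 * a - n + 1)) ≤ 2 := by
  classical
  set s : ℤ := l - n + 1 with hs
  have hsplit : ∀ a ∈ Finset.range n, ind (l + a) * (h l * h (l + 2 * a - n + 1)) ≤
      (if s + 2 * (a:ℤ) < 0 then (2:ℝ) ^ (s + 2 * (a:ℤ)) else 0) +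
      (if 0 ≤ s + 2 * (a:ℤ) ∧ lam (l + a) then (1:ℝ) else 0) := by
    intro a ha
    have e1 : l + 2 * (a:ℤ) - n + 1 = s + 2 * a := by rw [hs]; ring
    rw [e1]
    have p1 := ind_nonneg (l + a)
    have p2 := ind_le_one (l + a)
    have p3 := (h_pos l).le
    have p4 := h_le_one l
    have p5 := (h_pos (s + 2 * a)).le
    have p6 := h_le_one (s + 2 * a)
    have p7 : h l * h (s + 2 * a) ≤ h (s + 2 * a) := by nlinarith
    have p8 : 0 ≤ h l * h (s + 2 * a) := mul_nonneg p3 p5
    by_cases hc : s + 2 * (a:ℤ) < 0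
    · rw [if_pos hc, if_neg (by intro h; omega), add_zero, ← h_neg hc]
      nlinarith
    · rw [if_neg hc, zero_add]
      by_cases hl : lam (l + a)
      · rw [if_pos ⟨not_lt.1 hc, hl⟩]
        nlinarith
      · rw [if_neg (fun hh => hl hh.2)]
        have : ind (l + a) = 0 := by unfold ind; rw [if_neg hl]
        rw [this, zero_mul]
  refine (Finset.sum_le_sum hsplit).trans ?_
  rw [Finset.sum_add_distrib]
  have h1 := (geom n s).1
  have h2 : ∑ a ∈ Finset.range n, (if 0 ≤ s + 2 * (a:ℤ) ∧ lam (l + a) then (1:ℝ) else 0) ≤ 1 := by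
    rw [← Finset.sum_filter, Finset.sum_const, nsmul_eq_mul, mul_one]
    have : (Finset.filter (fun a : ℕ => 0 ≤ s + 2 * (a:ℤ) ∧ lam (l + a)) (Finset.range n)).card ≤ 1 := by
      rw [Finset.card_le_one]
      intro a ha b hb
      rw [Finset.mem_filter, Finset.mem_range] at ha hb
      obtain ⟨ha1, ha2, ha3⟩ := ha
      obtain ⟨hb1, hb2, hb3⟩ := hb
      have key : ∀ a b : ℕ, a < n → b < n → 0 ≤ s + 2 * (a:ℤ) → lam (l + a) → lam (l + b) → ¬ a < b := by
        intro a b ha hb ha2 ha3 hb3 hab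
        have h3 := lam_sparse ha3 hb3 (by omega)
        have h4 := lam_pos ha3
        omega
      have k1 := key a b ha1 hb1 ha2 ha3 hb3
      have k2 := key b a hb1 ha1 hb2 hb3 ha3
      omega
    exact_mod_cast this
  linarith

/-- shifts: second component forward, first component backward -/
def pi₀ (n : ℤ) : Equiv.Perm (Bool × ℤ) where
  toFun i := if i.1 then (true, i.2 - n) else (false, i.2 + n)
  invFun i := if i.1 then (true, i.2 + n) else (false, i.2 - n)
  left_inv i := by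
    obtain ⟨b, j⟩ := i
    cases b <;> simp
  right_inv i := by
    obtain ⟨b, j⟩ := i
    cases b <;> simp

/-- exchange of the two components -/
def sw (m : ℤ) : Equiv.Perm (Bool × ℤ) where
  toFun i := if i.1 then (false, i.2 - m) else (true, i.2 + m)
  invFun i := if i.1 then (false, i.2 - m) else (true, i.2 + m)
  left_inv i := by
    obtain ⟨b, j⟩ := i
    cases b <;> simp
  right_inv i := by
    obtain ⟨b, j⟩ := i
    cases b <;> simp

noncomputable def uu (i : Bool × ℤ) : ℝ := if i.1 then h (i.2 - 1) / h i.2 else h i.2 / h (i.2 + 1)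

noncomputable def vv (i : Bool × ℤ) : ℝ := if i.1 then 0 else ind i.2

/-- multiplication by a scalar as an operator -/
noncomputable def sc (c : ℝ) : ℂ →L[ℂ] ℂ := (c : ℂ) • ContinuousLinearMap.id ℂ ℂ

lemma sc_apply (c : ℝ) (z : ℂ) : sc c z = (c : ℂ) * z := by simp [sc]

lemma sc_norm (c : ℝ) : ‖sc c‖ ≤ |c| := by
  apply ContinuousLinearMap.opNorm_le_bound _ (abs_nonneg c)
  intro z
  rw [sc_apply, norm_mul, Complex.norm_real, Real.norm_eq_abs]

lemma uu_abs (i : Bool × ℤ) : |uu i| ≤ 1 := by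
  unfold uu
  split_ifs
  · have h1 := h_pos (i.2 - 1)
    have h2 := h_pos i.2
    rw [abs_of_nonneg (by positivity), div_le_one h2]
    exact h_mono (by omega)
  · have h1 := h_pos (i.2 + 1)
    have h2 := h_pos i.2
    rw [abs_of_nonneg (by positivity), div_le_one h1]
    exact h_mono (by omega)

lemma vv_abs (i : Bool × ℤ) : |vv i| ≤ 1 := by
  unfold vv
  split_ifs
  · simp
  · rw [abs_of_nonneg (ind_nonneg _)]; exact ind_le_one _

abbrev H₀ : Type := L (Bool × ℤ) ℂ

noncomputable def T1 : H₀ →L[ℂ] H₀ :=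
  wc (pi₀ 1) (fun i => sc (uu i)) 1 zero_le_one (fun i => (sc_norm _).trans (uu_abs i))

noncomputable def T2 : H₀ →L[ℂ] H₀ :=
  wc (sw 0) (fun i => sc (vv i)) 1 zero_le_one (fun i => (sc_norm _).trans (vv_abs i))

/-- the basic operator -/
noncomputable def T₀ : H₀ →L[ℂ] H₀ := T1 + T2

lemma T₀_true (x : H₀) (j : ℤ) : (T₀ x) (true, j) = ((h (j - 1) / h j : ℝ) : ℂ) * x (true, j - 1) := by
  unfold T₀ T1 T2
  rw [ContinuousLinearMap.add_apply, lp.coeFn_add, Pi.add_apply, wc_apply, wc_apply, sc_apply, sc_apply]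
  simp [uu, vv, pi₀]

lemma T₀_false (x : H₀) (j : ℤ) : (T₀ x) (false, j) =
    ((h j / h (j + 1) : ℝ) : ℂ) * x (false, j + 1) + (ind j : ℂ) * x (true, j) := by
  unfold T₀ T1 T2
  rw [ContinuousLinearMap.add_apply, lp.coeFn_add, Pi.add_apply, wc_apply, wc_apply, sc_apply, sc_apply]
  simp [uu, vv, pi₀, sw]

lemma pow_true (n : ℕ) (x : H₀) (j : ℤ) :
    ((T₀ ^ n) x) (true, j) = ((h (j - n) / h j : ℝ) : ℂ) * x (true, j - n) := by
  induction n generalizing j with
  | zero =>
    have := (h_pos j).ne'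
    simp [div_self this]
  | succ n ih =>
    rw [pow_succ', ContinuousLinearMap.mul_apply, T₀_true, ih]
    have h1 := (h_pos j).ne'
    have h2 := (h_pos (j - 1)).ne'
    have e : j - 1 - (n:ℤ) = j - ((n + 1 : ℕ) : ℤ) := by push_cast; ring
    rw [e, ← mul_assoc, ← Complex.ofReal_mul]
    congr 2
    field_simp

lemma ind_h (l : ℤ) : ind l * (h l)⁻¹ = ind l * h l := by
  unfold ind
  split_ifs with hl
  · rw [h_nonneg (lam_pos hl).le]; simp
  · simp

lemma pow_false (n : ℕ) (x : H₀) (l : ℤ) :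
    ((T₀ ^ n) x) (false, l) = ((h l / h (l + n) : ℝ) : ℂ) * x (false, l + n) +
      ∑ a ∈ Finset.range n, ((ind (l + a) * (h l * h (l + 2 * a - n + 1)) : ℝ) : ℂ) *
        x (true, l + 2 * a - n + 1) := by
  induction n generalizing l with
  | zero =>
    have := (h_pos l).ne'
    simp [div_self this]
  | succ n ih =>
    rw [pow_succ', ContinuousLinearMap.mul_apply, T₀_false, ih, pow_true, Finset.sum_range_succ']
    have h1 := (h_pos l).ne'
    have h2 := (h_pos (l + 1)).ne'
    rw [mul_add, add_assoc]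
    congr 1
    · have e : l + 1 + (n:ℤ) = l + ((n + 1 : ℕ) : ℤ) := by push_cast; ring
      rw [e, ← mul_assoc, ← Complex.ofReal_mul]
      congr 2
      field_simp
    · congr 1
      · rw [Finset.mul_sum]
        apply Finset.sum_congr rfl
        intro a _
        have e1 : l + 1 + 2 * (a:ℤ) - n + 1 = l + 2 * ((a + 1 : ℕ):ℤ) - ((n + 1 : ℕ) : ℤ) + 1 := by
          push_cast; ring
        have e2 : l + 1 + (a:ℤ) = l + ((a + 1 : ℕ) : ℤ) := by push_cast; ring
        rw [e1, e2, ← mul_assoc, ← Complex.ofReal_mul]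
        congr 2
        field_simp
      · have e1 : l + 2 * ((0:ℕ):ℤ) - ((n + 1 : ℕ):ℤ) + 1 = l - n := by push_cast; ring
        rw [e1, ← mul_assoc, ← Complex.ofReal_mul]
        congr 2
        have := ind_h l
        rw [div_eq_mul_inv]
        simp only [Nat.cast_zero, add_zero]
        calc ind l * (h (l - n) * (h l)⁻¹) = (ind l * (h l)⁻¹) * h (l - n) := by ring
          _ = _ := by rw [this]; ring

/-- power boundedness -/
theorem T₀_pow_norm (n : ℕ) : ‖T₀ ^ n‖ ≤ 3 := by
  apply ContinuousLinearMap.opNorm_le_bound _ (by norm_num)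
  intro x
  -- the Schur test with the index set `Option (range n)`
  set S : Finset (Option ℕ) := insert none ((Finset.range n).map Function.Embedding.some) with hS
  set τ : Option ℕ → Equiv.Perm (Bool × ℤ) := fun c => match c with
    | none => pi₀ n
    | some a => sw (2 * a - n + 1) with hτ
  set k : Bool × ℤ → Option ℕ → ℝ := fun i c => match c with
    | none => 1
    | some a => if i.1 then 0 else ind (i.2 + a) * (h i.2 * h (i.2 + 2 * a - n + 1)) with hk
  have hkn : ∀ i c, 0 ≤ k i c := by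
    intro i c
    match c with
    | none => exact zero_le_one
    | some a =>
      show 0 ≤ if i.1 then 0 else ind (i.2 + a) * (h i.2 * h (i.2 + 2 * a - n + 1))
      split_ifs
      · exact le_rfl
      · exact mul_nonneg (ind_nonneg _) (mul_nonneg (h_pos _).le (h_pos _).le)
  have hsum : ∀ f : Option ℕ → ℝ, ∑ c ∈ S, f c = f none + ∑ a ∈ Finset.range n, f (some a) := by
    intro f
    rw [hS, Finset.sum_insert (by simp), Finset.sum_map]
    rfl
  apply schur S τ k hkn (by norm_num)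
  · rintro ⟨b, j⟩
    rw [hsum]
    have h1 : ∑ a ∈ Finset.range n, k (b, j) (some a) ≤ 2 := by
      cases b
      · exact row_sum n j
      · show ∑ a ∈ Finset.range n, (if (true : Bool) then (0:ℝ) else _) ≤ 2
        simp
    have h2 : k (b, j) none = 1 := rfl
    linarith
  · rintro ⟨b, j⟩
    rw [hsum]
    have h2 : k ((τ none).symm (b, j)) none = 1 := rfl
    have h1 : ∑ a ∈ Finset.range n, k ((τ (some a)).symm (b, j)) (some a) ≤ 2 := by
      cases b
      · have : ∀ a ∈ Finset.range n, k ((τ (some a)).symm (false, j)) (some a) = 0 := by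
          intro a _
          simp [hk, hτ, sw]
        rw [Finset.sum_eq_zero this]; norm_num
      · have : ∀ a ∈ Finset.range n, k ((τ (some a)).symm (true, j)) (some a) =
            ind (j + (n - 1 - a : ℕ)) * (h j * h (j + 2 * (n - 1 - a : ℕ) - n + 1)) := by
          intro a ha
          rw [Finset.mem_range] at ha
          have e0 : ((n - 1 - a : ℕ) : ℤ) = n - 1 - a := by omega
          have e1 : (τ (some a)).symm (true, j) = (false, j - (2 * a - n + 1)) := rfl
          rw [e1, e0]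
          show ind (j - (2 * a - n + 1) + a) * (h (j - (2 * a - n + 1)) *
            h (j - (2 * a - n + 1) + 2 * a - n + 1)) = _
          have a1 : j - (2 * (a:ℤ) - n + 1) + a = j + (n - 1 - a) := by ring
          have a2 : j - (2 * (a:ℤ) - n + 1) + 2 * a - n + 1 = j := by ring
          have a3 : j - (2 * (a:ℤ) - n + 1) = j + 2 * (n - 1 - a) - n + 1 := by ring
          rw [a1, a2, a3]
          ring
        rw [Finset.sum_congr rfl this, Finset.sum_range_reflect
          (fun a : ℕ => ind (j + a) * (h j * h (j + 2 * a - n + 1)))]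
        exact row_sum n j
    linarith
  · rintro ⟨b, j⟩
    rw [hsum]
    have hcf : ∀ c : ℝ, 0 ≤ c → ∀ z : ℂ, ‖(c:ℂ) * z‖ = c * ‖z‖ := by
      intro c hc z
      rw [norm_mul, Complex.norm_real, Real.norm_eq_abs, abs_of_nonneg hc]
    cases b
    · rw [pow_false]
      refine (norm_add_le _ _).trans ?_
      apply add_le_add
      · rw [hcf _ (div_nonneg (h_pos _).le (h_pos _).le)]
        show _ ≤ 1 * ‖x (false, j + n)‖
        gcongr
        rw [div_le_one (h_pos _)]
        exact h_mono (by omega)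
      · refine (norm_sum_le _ _).trans (Finset.sum_le_sum fun a _ => ?_)
        rw [hcf _ (mul_nonneg (ind_nonneg _) (mul_nonneg (h_pos _).le (h_pos _).le))]
        show _ ≤ ind (j + a) * (h j * h (j + 2 * a - n + 1)) * ‖x (true, j + (2 * a - n + 1))‖
        have : j + (2 * (a:ℤ) - n + 1) = j + 2 * a - n + 1 := by ring
        rw [this]
    · rw [pow_true, hcf _ (div_nonneg (h_pos _).le (h_pos _).le)]
      have h1 : 0 ≤ ∑ a ∈ Finset.range n, k (true, j) (some a) * ‖x (τ (some a) (true, j))‖ :=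
        Finset.sum_nonneg fun a _ => mul_nonneg (hkn (true, j) (some a)) (norm_nonneg _)
      have h2 : h (j - n) / h j * ‖x (true, j - n)‖ ≤ 1 * ‖x (true, j - n)‖ := by
        gcongr
        rw [div_le_one (h_pos _)]
        exact h_mono (by omega)
      have h3 : k (true, j) none * ‖x (τ none (true, j))‖ = 1 * ‖x (true, j - n)‖ := rfl
      rw [h3]
      linarith

lemma T₀_inj (x : H₀) (hx : T₀ x = 0) : x = 0 := by
  have h1 : ∀ j : ℤ, x (true, j) = 0 := by
    intro j
    have h2 := T₀_true x (j + 1)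
    rw [hx] at h2
    have h3 : ((h (j + 1 - 1) / h (j + 1) : ℝ) : ℂ) ≠ 0 := by
      rw [Complex.ofReal_ne_zero]
      exact (div_pos (h_pos _) (h_pos _)).ne'
    have h4 : ((h (j + 1 - 1) / h (j + 1) : ℝ) : ℂ) * x (true, j + 1 - 1) = 0 := by
      rw [← h2]; rfl
    rcases mul_eq_zero.1 h4 with h5 | h5
    · exact absurd h5 h3
    · simpa using h5
  ext i
  obtain ⟨b, j⟩ := i
  cases b
  · have h2 := T₀_false x (j - 1)
    rw [hx, h1] at h2
    have h3 : ((h (j - 1) / h (j - 1 + 1) : ℝ) : ℂ) ≠ 0 := by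
      rw [Complex.ofReal_ne_zero]
      exact (div_pos (h_pos _) (h_pos _)).ne'
    have h4 : ((h (j - 1) / h (j - 1 + 1) : ℝ) : ℂ) * x (false, j - 1 + 1) = 0 := by
      rw [mul_zero, add_zero] at h2
      rw [← h2]; rfl
    rcases mul_eq_zero.1 h4 with h5 | h5
    · exact absurd h5 h3
    · simpa using h5
  · simpa using h1 j

lemma sc_adj (c : ℝ) : ContinuousLinearMap.adjoint (sc c) = sc c := by
  symm
  rw [ContinuousLinearMap.eq_adjoint_iff]
  intro x y
  rw [sc_apply, sc_apply]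
  simp
  ring

lemma T₀_adj_apply (y : H₀) (i : Bool × ℤ) : (ContinuousLinearMap.adjoint T₀ y) i =
    (uu ((pi₀ 1).symm i) : ℂ) * y ((pi₀ 1).symm i) + (vv ((sw 0).symm i) : ℂ) * y ((sw 0).symm i) := by
  unfold T₀ T1 T2
  rw [map_add, ContinuousLinearMap.add_apply, lp.coeFn_add, Pi.add_apply, wc_adj_apply, wc_adj_apply,
    sc_adj, sc_adj, sc_apply, sc_apply]

lemma T₀_adj_inj (y : H₀) (hy : ContinuousLinearMap.adjoint T₀ y = 0) : y = 0 := by
  have h1 : ∀ j : ℤ, y (false, j) = 0 := by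
    intro j
    have h2 := T₀_adj_apply y (false, j + 1)
    rw [hy] at h2
    have e1 : (pi₀ 1).symm (false, j + 1) = (false, j) := by
      simp [pi₀, Equiv.symm]
    have e2 : (sw 0).symm (false, j + 1) = (true, j + 1) := by
      simp [sw, Equiv.symm]
    rw [e1, e2] at h2
    have h3 : ((h j / h (j + 1) : ℝ) : ℂ) ≠ 0 := by
      rw [Complex.ofReal_ne_zero]
      exact (div_pos (h_pos _) (h_pos _)).ne'
    have h4 : ((h j / h (j + 1) : ℝ) : ℂ) * y (false, j) = 0 := by
      have : (0 : ℂ) = ((h j / h (j + 1) : ℝ) : ℂ) * y (false, j) + ((0:ℝ):ℂ) * y (true, j + 1) := h2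
      rw [this]; simp
    rcases mul_eq_zero.1 h4 with h5 | h5
    · exact absurd h5 h3
    · exact h5
  ext i
  obtain ⟨b, j⟩ := i
  cases b
  · simpa using h1 j
  · have h2 := T₀_adj_apply y (true, j - 1)
    rw [hy] at h2
    have e1 : (pi₀ 1).symm (true, j - 1) = (true, j) := by
      simp [pi₀, Equiv.symm]
    have e2 : (sw 0).symm (true, j - 1) = (false, j - 1) := by
      simp [sw, Equiv.symm]
    rw [e1, e2, h1] at h2
    have h3 : ((h (j - 1) / h j : ℝ) : ℂ) ≠ 0 := by
      rw [Complex.ofReal_ne_zero]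
      exact (div_pos (h_pos _) (h_pos _)).ne'
    have h4 : ((h (j - 1) / h j : ℝ) : ℂ) * y (true, j) = 0 := by
      rw [mul_zero, add_zero] at h2
      exact h2.symm
    rcases mul_eq_zero.1 h4 with h5 | h5
    · exact absurd h5 h3
    · simpa using h5

/-- the special vectors -/
noncomputable def f₀ : H₀ := lp.single 2 (true, (0:ℤ)) (1:ℂ)
noncomputable def e₀ : H₀ := lp.single 2 (false, (0:ℤ)) (1:ℂ)

open Classical in
lemma pairing (n : ℕ) : inner ℂ e₀ ((T₀ ^ n) f₀) = if ∃ k : ℕ, n = 2 * 3 ^ k + 1 then 1 else 0 := by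
  unfold e₀
  rw [lp.inner_single_left, pow_false]
  have h1 : (f₀ : Bool × ℤ → ℂ) (false, 0 + (n:ℤ)) = 0 := by
    unfold f₀
    rw [lp.single_apply_ne]
    simp
  have h2 : ∀ m : ℤ, (f₀ : Bool × ℤ → ℂ) (true, m) = if m = 0 then 1 else 0 := by
    intro m
    unfold f₀
    split_ifs with hm
    · rw [hm, lp.single_apply_self]
    · rw [lp.single_apply_ne]
      simpa using hm
  rw [h1, mul_zero, zero_add]
  simp only [h2, RCLike.inner_apply, map_one, mul_one]
  by_cases hk : ∃ k : ℕ, n = 2 * 3 ^ k + 1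
  · rw [if_pos hk]
    obtain ⟨k, hk⟩ := hk
    rw [Finset.sum_eq_single (3 ^ k)]
    · have e1 : (0:ℤ) + 2 * ((3 ^ k : ℕ) : ℤ) - n + 1 = 0 := by rw [hk]; push_cast; ring
      rw [e1, if_pos rfl]
      have : ind (0 + ((3 ^ k : ℕ) : ℤ)) = 1 := by
        unfold ind
        rw [if_pos ⟨k, by push_cast; ring⟩]
      rw [this, h_nonneg le_rfl]
      simp
    · intro b _ hb
      rw [if_neg, mul_zero]
      intro hc
      apply hb
      have : (b:ℤ) = ((3 ^ k : ℕ) : ℤ) := by rw [hk] at hc; push_cast at hc ⊢; omega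
      exact_mod_cast this
    · intro hc
      exfalso
      apply hc
      rw [Finset.mem_range, hk]
      omega
  · rw [if_neg hk]
    apply Finset.sum_eq_zero
    intro a _
    split_ifs with hc
    · have : ind (0 + (a:ℤ)) = 0 := by
        unfold ind
        rw [if_neg]
        rintro ⟨k, hk2⟩
        apply hk
        refine ⟨k, ?_⟩
        have h3 : (a:ℤ) = 3 ^ k := by simpa using hk2
        have h4 : a = 3 ^ k := by exact_mod_cast h3
        rw [← h4]
        omega
      rw [this]; simp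
    · simp

end Pool.Agent.X153.C11
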